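import Pool.Agent.helper64.QF.Spec

set_option autoImplicit false

namespace Pool.Agent.helper64.QF

open Metric MeasureTheory Set Filter Topology
open Pool.Agent.helper37.PR

theorem PLI_P2 {n : ℕ} (h : E n → E n) (z : E n) :
    P2 h z = (1 / 2 : ℂ) • fderiv ℂ (fderiv ℂ h) 0 z z := by
  unfold P2
  rw [iteratedFDeriv_two_apply]

theorem PLI_unit {n : ℕ} {A : E n →L[ℂ] E n} {h : E n → E n} (hc : IsCara A h)
    (hs : ∀ u w : E n, fderiv ℂ (fderiv ℂ h) 0 u w = fderiv ℂ (fderiv ℂ h) 0 w u) (a b : E n)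
    (ha : ‖a‖ = 1) (hb : ‖b‖ = 1) : ‖fderiv ℂ (fderiv ℂ h) 0 a b‖ ≤ 8 * ‖A‖ := by
  have h1 : (2 : ℂ) • fderiv ℂ (fderiv ℂ h) 0 a b = P2 h (a + b) - P2 h (a - b) := by
    rw [PLI_P2, PLI_P2]
    simp only [map_add, map_sub, ContinuousLinearMap.add_apply, ContinuousLinearMap.sub_apply]
    rw [hs b a]
    module
  have h2 : ‖(2 : ℂ) • fderiv ℂ (fderiv ℂ h) 0 a b‖ ≤
      4 * ‖A‖ * ‖a + b‖ ^ 2 + 4 * ‖A‖ * ‖a - b‖ ^ 2 := by
    rw [h1]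
    exact (norm_sub_le _ _).trans (add_le_add (P2_bound hc _) (P2_bound hc _))
  have h3 : ‖a + b‖ ^ 2 + ‖a - b‖ ^ 2 = 4 := by
    have h4 := parallelogram_law_with_norm ℂ a b
    rw [ha, hb] at h4
    nlinarith
  rw [norm_smul, Complex.norm_ofNat] at h2
  have h5 : 4 * ‖A‖ * ‖a + b‖ ^ 2 + 4 * ‖A‖ * ‖a - b‖ ^ 2 = 16 * ‖A‖ := by
    rw [← mul_add, h3]
    ring
  rw [h5] at h2
  linarith

theorem PLI_bil {n : ℕ} {A : E n →L[ℂ] E n} {h : E n → E n} (hc : IsCara A h)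
    (hs : ∀ u w : E n, fderiv ℂ (fderiv ℂ h) 0 u w = fderiv ℂ (fderiv ℂ h) 0 w u) (u w : E n) :
    ‖fderiv ℂ (fderiv ℂ h) 0 u w‖ ≤ 8 * ‖A‖ * (‖u‖ * ‖w‖) := by
  by_cases hu : u = 0
  · rw [hu]
    simp
  by_cases hw : w = 0
  · rw [hw]
    simp
  have hun : 0 < ‖u‖ := norm_pos_iff.2 hu
  have hwn : 0 < ‖w‖ := norm_pos_iff.2 hw
  have h1 := PLI_unit hc hs (((‖u‖⁻¹ : ℝ) : ℂ) • u) (((‖w‖⁻¹ : ℝ) : ℂ) • w)
    (by rw [norm_smul, Complex.norm_real, norm_inv, norm_norm, inv_mul_cancel₀ hun.ne'])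
    (by rw [norm_smul, Complex.norm_real, norm_inv, norm_norm, inv_mul_cancel₀ hwn.ne'])
  rw [map_smul, map_smul, ContinuousLinearMap.smul_apply, norm_smul, norm_smul, Complex.norm_real,
    Complex.norm_real, norm_inv, norm_inv, norm_norm, norm_norm] at h1
  have h2 : ‖fderiv ℂ (fderiv ℂ h) 0 u w‖ =
      (‖u‖ * ‖w‖) * (‖w‖⁻¹ * (‖u‖⁻¹ * ‖fderiv ℂ (fderiv ℂ h) 0 u w‖)) := by
    field_simp
  rw [h2, mul_comm (8 * ‖A‖)]
  exact mul_le_mul_of_nonneg_left h1 (by positivity)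

theorem PLI : PLI_stmt := by
  intro n A h hc
  refine ⟨fun x => P2_bound hc x, fun x y => ?_⟩
  have hs : ∀ u w : E n, fderiv ℂ (fderiv ℂ h) 0 u w = fderiv ℂ (fderiv ℂ h) 0 w u := by
    have ha : AnalyticAt ℂ h 0 := hc.an 0 (mem_ball_self one_pos)
    have h1 : IsSymmSndFDerivAt ℂ h 0 := ContDiffAt.isSymmSndFDerivAt_of_omega ha.contDiffAt
    intro u w
    exact h1 u w
  have h1 : P2 h x - P2 h y = (1 / 2 : ℂ) • fderiv ℂ (fderiv ℂ h) 0 (x - y) (x + y) := by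
    rw [PLI_P2, PLI_P2]
    simp only [map_add, map_sub, ContinuousLinearMap.sub_apply]
    rw [hs y x]
    module
  rw [h1, norm_smul]
  have h2 := PLI_bil hc hs (x - y) (x + y)
  have h3 : ‖(1 / 2 : ℂ)‖ = 1 / 2 := by norm_num
  rw [h3]
  have h4 : ‖x - y‖ * ‖x + y‖ ≤ (‖x‖ + ‖y‖) * ‖x - y‖ := by
    rw [mul_comm]
    exact mul_le_mul_of_nonneg_right (norm_add_le _ _) (norm_nonneg _)
  have h5 : 8 * ‖A‖ * (‖x - y‖ * ‖x + y‖) ≤ 8 * ‖A‖ * ((‖x‖ + ‖y‖) * ‖x - y‖) :=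
    mul_le_mul_of_nonneg_left h4 (by positivity)
  linarith

end Pool.Agent.helper64.QF
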